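import Pool.Agent.N589.LL.Main
import Pool.Agent.N589.LL2.Bridge
import Pool.Agent.N999.LL.TaskIrred
import Pool.Agent.N879.LL.TaskSpecial
import Pool.Agent.N879.LL.TaskGlob
import Pool.Agent.N527.LL.TaskFix
import Pool.Agent.N767.LL.TaskUniv
import Pool.Agent.N708.LL.TaskLocTop
import Pool.Agent.N776.LL.TaskGl
import Pool.Agent.N776.LL.TaskQuot
import Pool.Agent.N603.LL.TaskGA
import Pool.Agent.N919.LL.TaskApprox
import Pool.Agent.N616.LL.TaskClass
import Pool.Agent.N896.LL.TaskTree
import Pool.Agent.N718.LL.TaskF1
import Pool.Agent.N499.LL.TaskCusp
import Pool.Agent.N344.LL.TaskF2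
import Pool.Agent.N227.LL.TaskAvg
import Pool.Agent.N227.LL.TaskAdm
import Pool.Agent.N558.LL.TaskChar
import Pool.Agent.N282.LL.TaskIso
import Pool.Agent.N861.LL.TaskHaar

/-!
# There is no local lifting which predicts the components of all global liftings

Global field `K = F_2(t)`, place `∞`, `F = K_∞ = F_2((1/t))`, `G = GL_2`, `ρ` the identity of the dual group
`GL_2(ℂ)` (`n = 2`). There is no map `l` from the irreducible smooth representations of `GL_2(F)` to the irreducible
smooth representations of `GL_2(F)` such that for every automorphic representation `π` of `GL_2(A_K)` and every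
global lifting `Π` of `π` the component of `Π` at `∞` is `l(π_∞)`. All definitions are in
`Pool.Agent.N589.LL2.St`.

The proof: the Steinberg representation `St` of `GL_2(F)` is the component at `∞` of a cuspidal automorphic
representation, which is its own global lifting, and of the automorphic representation `St_∞ ⊗ 1` (a subquotient of
the space of automorphic forms), whose global lifting is the trivial representation `|.|^{1/2} ⊞ |.|^{-1/2}`.
-/

namespace Pool.Agent.Results.MP_5ae62c_nt.NoLocalLifting

open N589LL in
theorem old : N589LL.Goal := by
  have h5 : TaskLocTop := TaskLocTop_proof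
  have h6 : TaskGlob := TaskGlob_proof
  have h7 : TaskGl := TaskGl_proof h5
  have h8 : TaskGA := TaskGA_proof h5 h7
  have h9 : TaskApprox := TaskApprox_proof h5
  exact goal_of_tasks TaskIrred_proof TaskSpecial_proof TaskFix_proof TaskUniv_proof h6 h7 h8
    (TaskF1_proof h6 h7 h8) (TaskCusp_proof h9 h8)
    (TaskF2_proof TaskClass_proof (TaskTree_proof h5) h6) TaskAvg_proof TaskAdm_proof
    TaskChar_proof TaskHaar_proof TaskIso_proof (TaskQuot_proof h8)

open N589S

/-- There is no map `l` (not even one which does not respect isomorphisms) from the irreducible smooth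
representations of `GL_2(F)`, `F = F_2((1/t))`, to themselves, such that for all automorphic representations `π` of
`GL_2(A_K)`, `K = F_2(t)`, and all global liftings `P` of `π` with respect to the identity representation of the dual
group, `l (π_∞)` is the component `P_∞`. -/
theorem result : ¬ ∃ l : IrrRep (Gv infty) → IrrRep (Gv infty),
    ∀ π P : IrrRep GA, IsAutRep π → IsLifting π P →
      ∀ τ : IrrRep (Gv infty), IsComp π infty τ → IsComp P infty (l τ) :=
  final old

end Pool.Agent.Results.MP_5ae62c_nt.NoLocalLifting
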